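import Pool.Agent.Lib.MP_6bc78b_nt.MS.QZ.Iface

/-! Project MS, Part QZ, module NMQ (helper22): the proportion `19/27`. -/

set_option autoImplicit false

open Filter Topology

namespace Pool.Agent.Lib.MP_6bc78b_nt.MS.QZ.H22

open Pool.Agent.Lib.MP_6bc78b_nt.MS

/-- `m1` for the polynomial with `c1 = 3/2`, `c2 = -1/2` -/
theorem m1_val (th : ℝ) : m1 th (3 / 2) (-1 / 2) = 1 / 2 + 7 / 12 * th := by
  unfold m1
  ring

/-- `m2` for the polynomial with `c1 = 3/2`, `c2 = -1/2` -/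
theorem m2_val (th : ℝ) : m2 th (3 / 2) (-1 / 2) =
    (1 / 2 + 7 / 12 * th) ^ 2 + (1 + 13 / 12 / th) / 12 := by
  unfold m2
  rw [m1_val]
  norm_num

/-- NMQ -/
theorem nmq : NmqStatement := by
  intro ε hε
  have hc : ContinuousAt (fun th : ℝ => (1 / 2 + 7 / 12 * th) ^ 2 /
      ((1 / 2 + 7 / 12 * th) ^ 2 + (1 + 13 / 12 / th) / 12)) (1 / 2) := by
    refine ContinuousAt.div (by fun_prop) ?_ (by norm_num)
    refine ContinuousAt.add (by fun_prop) ?_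
    refine ContinuousAt.div_const ?_ _
    exact continuousAt_const.add (continuousAt_const.div continuousAt_id (by norm_num))
  have hv : (fun th : ℝ => (1 / 2 + 7 / 12 * th) ^ 2 /
      ((1 / 2 + 7 / 12 * th) ^ 2 + (1 + 13 / 12 / th) / 12)) (1 / 2) = 19 / 27 := by
    norm_num
  have h1 : ∀ᶠ th : ℝ in 𝓝 (1 / 2), 19 / 27 - ε < (1 / 2 + 7 / 12 * th) ^ 2 /
      ((1 / 2 + 7 / 12 * th) ^ 2 + (1 + 13 / 12 / th) / 12) := by
    apply hc.eventually_const_lt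
    rw [hv]
    linarith
  have h2 : ∀ᶠ th : ℝ in 𝓝[<] (1 / 2 : ℝ), 0 < th ∧ th < 1 / 2 ∧
      19 / 27 - ε < (1 / 2 + 7 / 12 * th) ^ 2 /
      ((1 / 2 + 7 / 12 * th) ^ 2 + (1 + 13 / 12 / th) / 12) := by
    have h3 : ∀ᶠ th : ℝ in 𝓝[<] (1 / 2 : ℝ), 0 < th :=
      (eventually_gt_nhds (by norm_num : (0 : ℝ) < 1 / 2)).filter_mono nhdsWithin_le_nhds
    filter_upwards [h3, self_mem_nhdsWithin, h1.filter_mono nhdsWithin_le_nhds]
      with th ha hb hc'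
    exact ⟨ha, hb, hc'⟩
  obtain ⟨th, h0, hh, hr⟩ := h2.exists
  have hp : 0 < 1 / 2 + 7 / 12 * th := by positivity
  have hq : 0 < (1 / 2 + 7 / 12 * th) ^ 2 + (1 + 13 / 12 / th) / 12 := by positivity
  refine ⟨th, 3 / 2, -1 / 2, h0, hh, ?_, ?_, ?_⟩
  · rw [m1_val]
    exact hp
  · rw [m2_val]
    exact hq
  · rw [m1_val, m2_val]
    exact hr.le

end Pool.Agent.Lib.MP_6bc78b_nt.MS.QZ.H22
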